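import Pool.Agent.H25.EE.TargetsB

set_option autoImplicit false

open Polynomial Finset

namespace Pool.Agent.H64.EE

open Pool.Agent.H25.EE

theorem pf_EXB : T_EXB := by
  intro a b
  have key : ((EX a b : ℕ) : ℤ) ≤
      (a.1.1 ^ 2 + a.1.2 ^ 2) + (b.1.1 ^ 2 + b.1.2 ^ 2) + 1 := by
    unfold EX hn
    have h1 : 2 * ((a.1.1 ^ 2 + a.1.2 ^ 2 + 1) / 2) ≤ a.1.1 ^ 2 + a.1.2 ^ 2 + 1 := by omega
    have h2 : 2 * ((b.1.1 ^ 2 + b.1.2 ^ 2 + 1) / 2) ≤ b.1.1 ^ 2 + b.1.2 ^ 2 + 1 := by omega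
    have h3 : 2 * (a.1.1 * b.1.1) ≤ a.1.1 ^ 2 + b.1.1 ^ 2 := by
      nlinarith [sq_nonneg (a.1.1 - b.1.1)]
    have h4 : 2 * (a.1.2 * b.1.2) ≤ a.1.2 ^ 2 + b.1.2 ^ 2 := by
      nlinarith [sq_nonneg (a.1.2 - b.1.2)]
    have h5 : 0 ≤ (a.1.1 ^ 2 + a.1.2 ^ 2) + (b.1.1 ^ 2 + b.1.2 ^ 2) + 1 := by positivity
    omega
  exact_mod_cast key

end Pool.Agent.H64.EE
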