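import Pool.Agent.H25.EE.TargetsB

set_option autoImplicit false

open Polynomial Finset

namespace Pool.Agent.H64.EE

open Pool.Agent.H25.EE

theorem two_pow_fact (L : ℕ) :
    (2 : ℝ) ^ L * (L.factorial : ℝ) ^ 2 ≤ Real.exp ((L : ℝ) + 2 * (L : ℝ) ^ 2) := by
  have h1 : (2 : ℝ) ^ L ≤ Real.exp (L : ℝ) := by
    have h2 : (2 : ℝ) ≤ Real.exp 1 := by
      have := Real.add_one_le_exp (1 : ℝ)
      linarith
    calc (2 : ℝ) ^ L ≤ (Real.exp 1) ^ L := by gcongr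
      _ = Real.exp L := by rw [← Real.exp_nat_mul]; simp
  have h3 : (L.factorial : ℝ) ≤ Real.exp ((L : ℝ) ^ 2) := by
    have h4 : (L.factorial : ℝ) ≤ (L : ℝ) ^ L := by exact_mod_cast Nat.factorial_le_pow L
    have h5 : (L : ℝ) ≤ Real.exp (L : ℝ) := by
      have := Real.add_one_le_exp (L : ℝ)
      linarith
    calc (L.factorial : ℝ) ≤ (L : ℝ) ^ L := h4
      _ ≤ (Real.exp (L : ℝ)) ^ L := by gcongr
      _ = Real.exp ((L : ℝ) ^ 2) := by rw [← Real.exp_nat_mul]; ring_nf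
  calc (2 : ℝ) ^ L * (L.factorial : ℝ) ^ 2
      ≤ Real.exp (L : ℝ) * (Real.exp ((L : ℝ) ^ 2)) ^ 2 := by gcongr
    _ = Real.exp ((L : ℝ) + 2 * (L : ℝ) ^ 2) := by
        rw [← Real.exp_nat_mul, ← Real.exp_add]
        norm_num

theorem num_UPP (j l L P v0 CD C1 ε : ℝ) (hj : 1 ≤ j) (hl : 0 < l) (hlj : l ≤ j) (hL : 0 ≤ L)
    (hLP : L ≤ P) (hP : P = 2 / 1125 * j ^ 4) (hPL : P - 10 * j ^ 2 ≤ L) (hv : 0 ≤ v0)
    (hv' : v0 ≤ 2 * P * l) (hCD : 0 ≤ CD) (hε : 13 + CD + |C1| ≤ ε * l) :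
    L + 2 * L ^ 2 + (P - L) * v0 + CD * j ^ 2 * l * L + C1 * j ^ 8 ≤ ε * j ^ 8 * l := by
  have j4 : 1 ≤ j ^ 4 := one_le_pow₀ hj
  have hPj : P ≤ j ^ 4 := by rw [hP]; linarith
  have hLj : L ≤ j ^ 4 := hLP.trans hPj
  have h48 : j ^ 4 ≤ j ^ 8 := pow_le_pow_right₀ hj (by norm_num)
  have h78 : j ^ 7 ≤ j ^ 8 := pow_le_pow_right₀ hj (by norm_num)
  have e1 : L ≤ j ^ 8 := hLj.trans h48
  have e2 : 2 * L ^ 2 ≤ 2 * j ^ 8 := by
    have : L ^ 2 ≤ (j ^ 4) ^ 2 := by gcongr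
    have h : (j ^ 4) ^ 2 = j ^ 8 := by ring
    linarith
  have e3 : (P - L) * v0 ≤ 10 * j ^ 8 := by
    have h1 : (P - L) * v0 ≤ (10 * j ^ 2) * (2 * P * l) := by
      apply mul_le_mul _ hv' hv (by positivity)
      linarith
    have h2 : (10 * j ^ 2) * (2 * P * l) ≤ (10 * j ^ 2) * (j ^ 4 * j) := by
      apply mul_le_mul_of_nonneg_left _ (by positivity)
      have h3 : 2 * P ≤ j ^ 4 := by rw [hP]; linarith
      exact mul_le_mul h3 hlj hl.le (by positivity)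
    have h4 : (10 * j ^ 2) * (j ^ 4 * j) = 10 * j ^ 7 := by ring
    linarith
  have e4 : CD * j ^ 2 * l * L ≤ CD * j ^ 8 := by
    have h1 : CD * j ^ 2 * l * L ≤ CD * j ^ 2 * j * j ^ 4 := by gcongr
    have h2 : CD * j ^ 2 * j * j ^ 4 = CD * j ^ 7 := by ring
    have h3 : CD * j ^ 7 ≤ CD * j ^ 8 := by gcongr
    linarith
  have e5 : C1 * j ^ 8 ≤ |C1| * j ^ 8 := by
    apply mul_le_mul_of_nonneg_right (le_abs_self _) (by positivity)
  have e6 : (13 + CD + |C1|) * j ^ 8 ≤ (ε * l) * j ^ 8 :=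
    mul_le_mul_of_nonneg_right hε (by positivity)
  nlinarith [e1, e2, e3, e4, e5, e6]

theorem amgm_UPP (l m v0 : ℝ) (hl : 0 < l) : m * v0 ≤ m ^ 2 * l + v0 ^ 2 / (4 * l) := by
  have h : m ^ 2 * l + v0 ^ 2 / (4 * l) - m * v0 = (2 * l * m - v0) ^ 2 / (4 * l) := by
    field_simp
    ring
  have h2 : 0 ≤ (2 * l * m - v0) ^ 2 / (4 * l) := by positivity
  linarith

theorem prof_UPP (l P v : ℝ) (hl : 0 < l) :
    P * v - v ^ 2 / (4 * l) ≤ P * (2 * P * l) - (2 * P * l) ^ 2 / (4 * l) := by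
  have h : (P * (2 * P * l) - (2 * P * l) ^ 2 / (4 * l)) - (P * v - v ^ 2 / (4 * l)) =
      (v - 2 * P * l) ^ 2 / (4 * l) := by
    field_simp
    ring
  have h2 : 0 ≤ (v - 2 * P * l) ^ 2 / (4 * l) := by positivity
  linarith

theorem pf_UPP (hENT : T_ENT) (hBND : T_BND) (hDIFF : T_DIFF) (hDETU : T_DETU) (hGAM : T_GAM)
    (hCARD : T_CARD) (hEVD : T_EVD) : T_UPP := by
  intro π ε hε
  obtain ⟨CB, hCB0, hCB⟩ := hBND π
  obtain ⟨CD, hCD0, hCD⟩ := hDIFF π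
  have hrho : 1 ≤ rho π := by
    unfold rho
    have : 0 ≤ (|lin π.x1| + |lin π.x2|) / |lin π.B| := by positivity
    have : 0 ≤ (|lin π.y1| + |lin π.y2|) / |lin π.A| := by positivity
    linarith
  obtain ⟨C1, J1, hG⟩ := hGAM (2 * CB) (rho π) (by linarith) hrho
  obtain ⟨hc1, -, hc3, -, -⟩ := hCARD
  obtain ⟨J2, hJ2⟩ := exists_nat_ge (Real.exp ((13 + CD + |C1|) / ε))
  refine ⟨max (max J1 J2) 2, fun J hJ g v hv x hx => ?_⟩
  have hJJ1 : J1 ≤ J := le_trans (le_trans (le_max_left _ _) (le_max_left _ _)) hJ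
  have hJJ2 : J2 ≤ J := le_trans (le_trans (le_max_right _ _) (le_max_left _ _)) hJ
  have h2J : 2 ≤ J := le_trans (le_max_right _ _) hJ
  have hJr : (2 : ℝ) ≤ J := by exact_mod_cast h2J
  have hJ0 : (0 : ℝ) < J := by linarith
  have hl0 : 0 < Real.log J := Real.log_pos (by linarith)
  have hlJ : Real.log J ≤ J := by
    have := Real.log_le_sub_one_of_pos hJ0
    linarith
  have hlK : 13 + CD + |C1| ≤ ε * Real.log J := by
    have h : (13 + CD + |C1|) / ε ≤ Real.log J := by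
      rw [Real.le_log_iff_exp_le hJ0]
      exact hJ2.trans (by exact_mod_cast hJJ2)
    rw [div_le_iff₀ hε] at h
    linarith
  obtain ⟨hsum, hprod⟩ := hG J hJJ1
  have hLP := hc1 J (by omega)
  have hPL := hc3 J (by omega)
  set l : ℝ := Real.log (J : ℝ) with hldef
  set P : ℝ := 2 / 1125 * (J : ℝ) ^ 4 with hPdef
  set v0 : ℝ := min v (2 * P * l) with hv0def
  have hP0 : 0 ≤ P := by positivity
  have hv00 : 0 ≤ v0 := le_min hv (by positivity)
  have hv0v : v0 ≤ v := min_le_left _ _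
  have hv0V : v0 ≤ 2 * P * l := min_le_right _ _
  -- the profile
  have hprof : P * v - v ^ 2 / (4 * l) ≤ P * v0 - v0 ^ 2 / (4 * l) := by
    rcases le_total v (2 * P * l) with h | h
    · rw [hv0def, min_eq_left h]
    · rw [hv0def, min_eq_right h]
      exact prof_UPP l P v hl0
  have hx1 : ‖x - ee‖ ≤ Real.exp (-v0) := hx.trans (Real.exp_le_exp.mpr (by linarith))
  have hx2 : ‖x - ee‖ ≤ 1 := hx1.trans (by
    rw [← Real.exp_zero]
    exact Real.exp_le_exp.mpr (by linarith))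
  have hcard : Fintype.card {a // a ∈ Ix s0 J} = (Ix s0 J).card := Fintype.card_coe _
  set L : ℕ := (Ix s0 J).card with hLdef
  have hL4 : L ≤ J ^ 4 := by
    have h1 : (L : ℝ) ≤ ((J ^ 4 : ℕ) : ℝ) := by
      push_cast
      refine hLP.trans ?_
      rw [hPdef]
      have : (0 : ℝ) ≤ (J : ℝ) ^ 4 := by positivity
      linarith
    exact_mod_cast h1
  rw [hEVD π J g x]
  have hdet := hDETU {a // a ∈ Ix s0 J} (fun a n => al π a.1 n) (fun a n => be π J (g a).1 n)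
    (fun a a' => ev (mm π J a.1 (g a').1) ee) (fun a a' => ev (mm π J a.1 (g a').1) x)
    (fun n => Real.exp (CB * (J : ℝ) ^ 2) * ((n : ℝ) + 1) ^ (J ^ 2) * (rho π * J) ^ n)
    (fun n => Real.exp (CB * (J : ℝ) ^ 2) * ((n : ℝ) + 1) ^ (J ^ 2) * (rho π * J) ^ n /
      n.factorial)
    (Real.exp (-v0 + CD * (J : ℝ) ^ 2 * l))
    (Real.exp (-((L : ℝ) * v0 - v0 ^ 2 / (4 * l)) + CD * (J : ℝ) ^ 2 * l * L +
      C1 * (J : ℝ) ^ 8))
    (fun k => ∑' n, gt (2 * CB) (rho π) J (n + k))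
    (fun a n => (hCB J (by omega)).1 a.1 a.2 |>.2 n)
    (fun a n => (hCB J (by omega)).2 (g a).1 (g a).2 |>.2 n)
    (fun n => by positivity) (fun n => by positivity)
    (by
      refine hsum.congr fun n => ?_
      unfold gt
      rw [show 2 * CB * (J : ℝ) ^ 2 = CB * (J : ℝ) ^ 2 + CB * (J : ℝ) ^ 2 by ring, Real.exp_add]
      ring)
    (fun k => by
      apply le_of_eq
      refine tsum_congr fun n => ?_
      unfold gt
      rw [show 2 * CB * (J : ℝ) ^ 2 = CB * (J : ℝ) ^ 2 + CB * (J : ℝ) ^ 2 by ring, Real.exp_add]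
      push_cast
      ring)
    (Real.exp_pos _).le
    (fun a a' => hENT π J a.1 (g a').1 a.2 (g a').2)
    (fun a a' => by
      refine (hCD J h2J a.1 a.2 (g a').1 (g a').2 x hx2).trans ?_
      rw [Real.exp_add]
      gcongr)
    (fun r hr => by
      rw [hcard] at hr ⊢
      have h1 := hprod (L - r) ((Nat.sub_le _ _).trans hL4)
      have h2 : Real.exp (-v0 + CD * (J : ℝ) ^ 2 * l) ^ r =
          Real.exp ((r : ℝ) * (-v0 + CD * (J : ℝ) ^ 2 * l)) := by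
        rw [← Real.exp_nat_mul]
      rw [h2]
      refine (mul_le_mul_of_nonneg_left h1 (Real.exp_pos _).le).trans ?_
      rw [← Real.exp_add]
      apply Real.exp_le_exp.mpr
      have h3 := amgm_UPP l ((L : ℝ) - r) v0 hl0
      have hrL : (r : ℝ) ≤ L := by exact_mod_cast hr
      rw [Nat.cast_sub hr]
      have h4 : (r : ℝ) * (CD * (J : ℝ) ^ 2 * l) ≤ CD * (J : ℝ) ^ 2 * l * L := by
        rw [mul_comm]
        exact mul_le_mul_of_nonneg_left hrL (by positivity)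
      nlinarith [h3, h4])
  refine hdet.trans ?_
  rw [hcard]
  refine (mul_le_mul_of_nonneg_right (two_pow_fact L) (Real.exp_pos _).le).trans ?_
  rw [← Real.exp_add]
  apply Real.exp_le_exp.mpr
  have hnum := num_UPP (J : ℝ) l L P v0 CD C1 ε (by linarith) hl0 hlJ (Nat.cast_nonneg _) hLP
    hPdef hPL hv00 hv0V hCD0 hlK
  unfold phi
  rw [← hldef, ← hPdef]
  nlinarith [hnum, hprof]

end Pool.Agent.H64.EE
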